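import Mathlib

/-! The Boolean group over a space `X` with the topology of locally constant partitions, and a
retraction onto `X` when `X` has a coarser ultrametric structure with a base of closed sets. -/

set_option autoImplicit false
open Topology Set Filter

namespace H86Rect

/-- The free Boolean group on `X`. -/
def BG (X : Type) : Type := X →₀ ZMod 2

noncomputable instance (X : Type) : AddCommGroup (BG X) :=
  inferInstanceAs (AddCommGroup (X →₀ ZMod 2))

/-- Push-forward along a map. -/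
noncomputable def push {X D : Type} (φ : X → D) (w : BG X) : D →₀ ZMod 2 :=
  Finsupp.mapDomain φ (show X →₀ ZMod 2 from w)

/-- A generator. -/
noncomputable def gen {X : Type} (x : X) : BG X := (Finsupp.single x 1 : X →₀ ZMod 2)

/-- The support. -/
def supp {X : Type} (w : BG X) : Finset X := (show X →₀ ZMod 2 from w).support

variable {X : Type}

theorem push_add {D : Type} (φ : X → D) (w w' : BG X) :
    push φ (w + w') = push φ w + push φ w' := Finsupp.mapDomain_add

theorem push_comp {D D' : Type} (φ : X → D) (g : D → D') (w : BG X) :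
    push (g ∘ φ) w = Finsupp.mapDomain g (push φ w) := Finsupp.mapDomain_comp

theorem push_gen {D : Type} (φ : X → D) (x : X) : push φ (gen x) = Finsupp.single (φ x) 1 :=
  Finsupp.mapDomain_single

theorem add_self (w : BG X) : w + w = 0 := by
  change (show X →₀ ZMod 2 from w) + (show X →₀ ZMod 2 from w) = 0
  ext a
  simp only [Finsupp.add_apply, Finsupp.zero_apply]
  exact CharTwo.add_self_eq_zero _

theorem mapDomain_ne_zero {D D' : Type} (g : D → D') (c : D →₀ ZMod 2) (d : D')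
    (h : Finsupp.mapDomain g c d ≠ 0) : ∃ b, c b ≠ 0 ∧ g b = d := by
  classical
  have h1 : d ∈ (Finsupp.mapDomain g c).support := Finsupp.mem_support_iff.2 h
  have h2 := Finsupp.mapDomain_support h1
  obtain ⟨b, hb, rfl⟩ := Finset.mem_image.1 h2
  exact ⟨b, Finsupp.mem_support_iff.1 hb, rfl⟩

theorem push_ne_zero {D : Type} (φ : X → D) (w : BG X) (d : D) (h : push φ w d ≠ 0) :
    ∃ a ∈ supp w, φ a = d := by
  obtain ⟨b, hb, rfl⟩ := mapDomain_ne_zero φ _ d h
  exact ⟨b, Finsupp.mem_support_iff.2 hb, rfl⟩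

theorem push_congr_fiber {D D' : Type} (φ : X → D) (ψ : X → D') (w : BG X) (d : D) (d' : D')
    (h : ∀ y, φ y = d ↔ ψ y = d') : push φ w d = push ψ w d' := by
  classical
  unfold push Finsupp.mapDomain
  rw [Finsupp.sum_apply, Finsupp.sum_apply]
  unfold Finsupp.sum
  refine Finset.sum_congr rfl fun a _ => ?_
  beta_reduce
  rw [Finsupp.single_apply, Finsupp.single_apply]
  by_cases h1 : φ a = d
  · rw [if_pos h1, if_pos ((h a).1 h1)]
  · rw [if_neg h1, if_neg (fun h2 => h1 ((h a).2 h2))]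

theorem push_eq_of_factor {D D' : Type} (φ : X → D) (ψ : X → D')
    (h : ∀ y y', φ y = φ y' → ψ y = ψ y') (w w' : BG X) (hw : push φ w = push φ w') :
    push ψ w = push ψ w' := by
  classical
  by_cases hX : Nonempty X
  · obtain ⟨x0⟩ := hX
    have : ψ = (fun d => if hd : ∃ y, φ y = d then ψ hd.choose else ψ x0) ∘ φ := by
      funext y
      have hd : ∃ y', φ y' = φ y := ⟨y, rfl⟩
      simp only [Function.comp]
      rw [dif_pos hd]
      exact (h _ _ hd.choose_spec).symm
    rw [this, push_comp, push_comp, hw]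
  · have : w = w' := by
      change (show X →₀ ZMod 2 from w) = (show X →₀ ZMod 2 from w')
      ext a
      exact absurd ⟨a⟩ hX
    rw [this]

variable [TopologicalSpace X]

instance : TopologicalSpace (BG X) where
  IsOpen U := ∀ w ∈ U, ∃ (D : Type) (φ : X → D), IsLocallyConstant φ ∧
    ∀ w', push φ w' = push φ w → w' ∈ U
  isOpen_univ := fun _ _ => ⟨Unit, fun _ => (), IsLocallyConstant.const _, fun _ _ => trivial⟩
  isOpen_inter := by
    intro s t hs ht w hw
    obtain ⟨D, φ, hφ, h1⟩ := hs w hw.1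
    obtain ⟨D', ψ, hψ, h2⟩ := ht w hw.2
    refine ⟨D × D', fun x => (φ x, ψ x), hφ.prodMk hψ, fun w' h => ⟨h1 w' ?_, h2 w' ?_⟩⟩
    · exact push_eq_of_factor _ φ (fun y y' h => congrArg Prod.fst h) _ _ h
    · exact push_eq_of_factor _ ψ (fun y y' h => congrArg Prod.snd h) _ _ h
  isOpen_sUnion := by
    intro S hS w hw
    obtain ⟨U, hU, hwU⟩ := hw
    obtain ⟨D, φ, hφ, h⟩ := hS U hU w hwU
    exact ⟨D, φ, hφ, fun w' h' => ⟨U, hU, h w' h'⟩⟩

theorem isOpen_BG {U : Set (BG X)} : IsOpen U ↔ ∀ w ∈ U, ∃ (D : Type) (φ : X → D),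
    IsLocallyConstant φ ∧ ∀ w', push φ w' = push φ w → w' ∈ U := Iff.rfl

theorem isOpen_push_fiber {D : Type} {φ : X → D} (hφ : IsLocallyConstant φ) (c : D →₀ ZMod 2) :
    IsOpen {w : BG X | push φ w = c} :=
  isOpen_BG.2 fun _ hw => ⟨D, φ, hφ, fun _ h => h.trans hw⟩

theorem continuous_add_BG : Continuous (fun p : BG X × BG X => p.1 + p.2) := by
  refine continuous_def.2 fun U hU => isOpen_iff_mem_nhds.2 fun p hp => ?_
  obtain ⟨D, φ, hφ, h⟩ := isOpen_BG.1 hU _ hp
  have h1 : {w : BG X | push φ w = push φ p.1} ×ˢ {w : BG X | push φ w = push φ p.2} ∈ 𝓝 p :=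
    prod_mem_nhds ((isOpen_push_fiber hφ _).mem_nhds rfl) ((isOpen_push_fiber hφ _).mem_nhds rfl)
  refine mem_of_superset h1 fun q hq => h _ ?_
  rw [push_add, push_add, hq.1, hq.2]

theorem continuous_gen : Continuous (gen : X → BG X) := by
  refine continuous_def.2 fun U hU => isOpen_iff_mem_nhds.2 fun x hx => ?_
  obtain ⟨D, φ, hφ, h⟩ := isOpen_BG.1 hU _ hx
  refine mem_of_superset ((hφ.isOpen_fiber (φ x)).mem_nhds rfl) fun y hy => h _ ?_
  rw [push_gen, push_gen]
  exact congrArg (fun d => Finsupp.single d (1 : ZMod 2)) hy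

/-- A coarser ultrametric structure. -/
structure Scales (X : Type) [TopologicalSpace X] where
  ρ : ℕ → X → X
  step : ∀ m x, ρ m (ρ (m + 1) x) = ρ m x
  lc : ∀ m, IsLocallyConstant (ρ m)
  sep : ∀ x y, (∀ m, ρ m x = ρ m y) → x = y
  base : ∀ (x : X) (O : Set X), O ∈ 𝓝 x → ∃ O' : Set X, IsOpen O' ∧ x ∈ O' ∧ O' ⊆ O ∧
    ∀ y, y ∉ O' → ∃ m, ∀ z, ρ m z = ρ m y → z ∉ O'

namespace Scales

variable (S : Scales X)

theorem mono {j m : ℕ} (h : j ≤ m) {x y : X} (hxy : S.ρ m x = S.ρ m y) : S.ρ j x = S.ρ j y := by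
  induction m, h using Nat.le_induction with
  | base => exact hxy
  | succ m _ ih =>
    apply ih
    rw [← S.step m x, ← S.step m y, hxy]

theorem exists_sep (F : Finset X) : ∃ m, ∀ x ∈ F, ∀ y ∈ F, S.ρ m x = S.ρ m y → x = y := by
  have h : ∀ p : X × X, ∃ m, S.ρ m p.1 = S.ρ m p.2 → p.1 = p.2 := by
    intro p
    by_contra hc
    push Not at hc
    exact (hc 0).2 (S.sep _ _ fun m => (hc m).1)
  choose M hM using h
  refine ⟨(F ×ˢ F).sup M, fun x hx y hy hxy => hM (x, y) (S.mono ?_ hxy)⟩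
  exact Finset.le_sup (f := M) (Finset.mem_product.2 ⟨hx, hy⟩)

theorem push_sep (w w' : BG X) (h : ∀ m, push (S.ρ m) w = push (S.ρ m) w') : w = w' := by
  classical
  obtain ⟨m, hm⟩ := S.exists_sep (supp w ∪ supp w')
  have := Finsupp.mapDomain_injOn (M := ZMod 2) (↑(supp w ∪ supp w') : Set X) (f := S.ρ m)
    (fun x hx y hy hxy => hm x (by exact_mod_cast hx) y (by exact_mod_cast hy) hxy)
  exact this (x₁ := w) (x₂ := w') (by
      intro a ha
      exact_mod_cast Finset.mem_union_left _ ha) (by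
      intro a ha
      exact_mod_cast Finset.mem_union_right _ ha) (h m)

/-- The descending sequence of odd balls. -/
noncomputable def ball (x0 : X) (c : ℕ → X →₀ ZMod 2) : ℕ → X
  | 0 => haveI : Nonempty X := ⟨x0⟩; Classical.epsilon (fun b => c 0 b ≠ 0)
  | m + 1 => haveI : Nonempty X := ⟨x0⟩
      Classical.epsilon (fun b => c (m + 1) b ≠ 0 ∧ S.ρ m b = ball x0 c m)

theorem ball_congr (x0 : X) (c c' : ℕ → X →₀ ZMod 2) (m : ℕ) (h : ∀ j ≤ m, c j = c' j) :
    S.ball x0 c m = S.ball x0 c' m := by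
  induction m with
  | zero => simp only [ball, h 0 le_rfl]
  | succ m ih =>
    simp only [ball, h (m + 1) le_rfl, ih fun j hj => h j (hj.trans (Nat.le_succ m))]

theorem ball_spec (x0 : X) (w : BG X) (h0 : push (S.ρ 0) w ≠ 0) (m : ℕ) :
    push (S.ρ m) w (S.ball x0 (fun j => push (S.ρ j) w) m) ≠ 0 ∧
    S.ρ m (S.ball x0 (fun j => push (S.ρ j) w) (m + 1)) =
      S.ball x0 (fun j => push (S.ρ j) w) m := by
  haveI : Nonempty X := ⟨x0⟩
  have key : ∀ m, push (S.ρ m) w (S.ball x0 (fun j => push (S.ρ j) w) m) ≠ 0 →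
      push (S.ρ (m + 1)) w (S.ball x0 (fun j => push (S.ρ j) w) (m + 1)) ≠ 0 ∧
      S.ρ m (S.ball x0 (fun j => push (S.ρ j) w) (m + 1)) =
        S.ball x0 (fun j => push (S.ρ j) w) m := by
    intro m hm
    have e : S.ρ m = S.ρ m ∘ S.ρ (m + 1) := funext fun x => (S.step m x).symm
    have hm' := hm
    have e' : push (S.ρ m) w = Finsupp.mapDomain (S.ρ m) (push (S.ρ (m + 1)) w) := by
      rw [← push_comp, ← e]
    rw [e'] at hm'
    have := mapDomain_ne_zero _ _ _ hm'
    exact Classical.epsilon_spec this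
  have h1 : ∀ m, push (S.ρ m) w (S.ball x0 (fun j => push (S.ρ j) w) m) ≠ 0 := by
    intro m
    induction m with
    | zero =>
      have : ∃ b, push (S.ρ 0) w b ≠ 0 := by
        by_contra hc
        push Not at hc
        exact h0 (Finsupp.ext hc)
      exact Classical.epsilon_spec this
    | succ m ih => exact (key m ih).1
  exact ⟨h1 m, (key m (h1 m)).2⟩

theorem exists_point (x0 : X) (w : BG X) (h0 : push (S.ρ 0) w ≠ 0) :
    ∃ a, ∀ m, S.ρ m a = S.ball x0 (fun j => push (S.ρ j) w) m := by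
  have h1 : ∀ m, ∃ a ∈ supp w, S.ρ m a = S.ball x0 (fun j => push (S.ρ j) w) m :=
    fun m => push_ne_zero _ _ _ (S.ball_spec x0 w h0 m).1
  have down : ∀ a m, S.ρ m a = S.ball x0 (fun j => push (S.ρ j) w) m → ∀ j ≤ m,
      S.ρ j a = S.ball x0 (fun j => push (S.ρ j) w) j := by
    intro a m
    induction m with
    | zero =>
      intro h j hj
      obtain rfl : j = 0 := Nat.le_zero.1 hj
      exact h
    | succ m ih =>
      intro h j hj
      rcases Nat.lt_or_ge j (m + 1) with h' | h'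
      · refine ih ?_ j (Nat.lt_succ_iff.1 h')
        rw [← S.step m a, h, (S.ball_spec x0 w h0 m).2]
      · obtain rfl : j = m + 1 := le_antisymm hj h'
        exact h
  by_contra hc
  push Not at hc
  choose M hM using hc
  obtain ⟨a, ha, h⟩ := h1 ((supp w).sup M)
  exact hM a (down a _ h _ (Finset.le_sup (f := M) ha))

open Classical in
/-- The retraction. -/
noncomputable def ret (x0 : X) (w : BG X) : X :=
  if h : push (S.ρ 0) w ≠ 0 then (S.exists_point x0 w h).choose else x0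

theorem ret_spec (x0 : X) (w : BG X) (h0 : push (S.ρ 0) w ≠ 0) (m : ℕ) :
    S.ρ m (S.ret x0 w) = S.ball x0 (fun j => push (S.ρ j) w) m := by
  unfold ret
  rw [dif_pos h0]
  exact (S.exists_point x0 w h0).choose_spec m

theorem ret_odd (x0 : X) (w : BG X) (h0 : push (S.ρ 0) w ≠ 0) (m : ℕ) :
    push (S.ρ m) w (S.ρ m (S.ret x0 w)) ≠ 0 := by
  rw [S.ret_spec x0 w h0]
  exact (S.ball_spec x0 w h0 m).1

theorem ret_gen (x0 x : X) : S.ret x0 (gen x) = x := by
  have h0 : push (S.ρ 0) (gen x) ≠ 0 := by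
    rw [push_gen]
    exact Finsupp.single_ne_zero.2 one_ne_zero
  refine S.sep _ _ fun m => ?_
  have := S.ret_odd x0 _ h0 m
  rw [push_gen] at this
  by_contra hc
  exact this (Finsupp.single_eq_of_ne hc)

theorem continuous_ret (x0 : X) : Continuous (S.ret x0) := by
  classical
  refine continuous_iff_continuousAt.2 fun w0 => ?_
  intro O hO
  rw [mem_map]
  by_cases h0 : push (S.ρ 0) w0 ≠ 0
  swap
  · refine mem_of_superset ((isOpen_push_fiber (S.lc 0) (push (S.ρ 0) w0)).mem_nhds rfl) ?_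
    intro w hw
    have hw' : ¬ push (S.ρ 0) w ≠ 0 := by rw [show push (S.ρ 0) w = _ from hw]; exact h0
    have e1 : S.ret x0 w = x0 := by unfold ret; rw [dif_neg hw']
    have e2 : S.ret x0 w0 = x0 := by unfold ret; rw [dif_neg h0]
    have := mem_of_mem_nhds hO
    rw [e2] at this
    show S.ret x0 w ∈ O
    rw [e1]; exact this
  obtain ⟨O', hO'o, hxO', hO'O, hcl⟩ := S.base _ O hO
  obtain ⟨m, hm⟩ := S.exists_sep (insert (S.ret x0 w0) (supp w0))
  have hex : ∀ y, y ∉ O' → ∃ M, m ≤ M ∧ ∀ z, S.ρ M z = S.ρ M y → z ∉ O' := by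
    intro y hy
    obtain ⟨M, hM⟩ := hcl y hy
    exact ⟨max m M, le_max_left _ _, fun z hz => hM z (S.mono (le_max_right _ _) hz)⟩
  let φ : X → X ⊕ (ℕ × X) := fun y =>
    if hy : y ∈ O' then Sum.inl (S.ρ m y)
    else Sum.inr (Nat.find (hex y hy), S.ρ (Nat.find (hex y hy)) y)
  have hfib : ∀ x (hx : x ∉ O'), ∀ y, φ y = φ x ↔
      S.ρ (Nat.find (hex x hx)) y = S.ρ (Nat.find (hex x hx)) x := by
    intro x hx y
    constructor
    · intro h
      by_cases hy : y ∈ O'
      · simp [φ, hx, hy] at h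
      · simp only [φ, dif_neg hx, dif_neg hy, Sum.inr.injEq, Prod.mk.injEq] at h
        rw [← h.2, h.1]
    · intro h
      have hy : y ∉ O' := (Nat.find_spec (hex x hx)).2 y h
      have hM : Nat.find (hex y hy) = Nat.find (hex x hx) := by
        apply le_antisymm
        · apply Nat.find_min'
          refine ⟨(Nat.find_spec (hex x hx)).1, fun z hz => ?_⟩
          exact (Nat.find_spec (hex x hx)).2 z (hz.trans h)
        · by_contra hlt
          push Not at hlt
          refine Nat.find_min (hex x hx) hlt ⟨(Nat.find_spec (hex y hy)).1, fun z hz => ?_⟩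
          exact (Nat.find_spec (hex y hy)).2 z (hz.trans (S.mono hlt.le h).symm)
      simp only [φ, dif_neg hx, dif_neg hy, Sum.inr.injEq, Prod.mk.injEq]
      exact ⟨hM, by rw [hM, h]⟩
  have hφ : IsLocallyConstant φ := by
    rw [IsLocallyConstant.iff_exists_open]
    intro x
    by_cases hx : x ∈ O'
    · refine ⟨O' ∩ {y | S.ρ m y = S.ρ m x}, hO'o.inter ((S.lc m).isOpen_fiber _), ⟨hx, rfl⟩, ?_⟩
      intro y hy
      simp only [φ, dif_pos hx, dif_pos hy.1]
      rw [hy.2]
    · exact ⟨{y | S.ρ (Nat.find (hex x hx)) y = S.ρ (Nat.find (hex x hx)) x},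
        (S.lc _).isOpen_fiber _, rfl, fun y hy => (hfib x hx y).2 hy⟩
  have hfac : ∀ y y', φ y = φ y' → S.ρ m y = S.ρ m y' := by
    intro y y' h
    by_cases hy' : y' ∈ O'
    · by_cases hy : y ∈ O'
      · simpa [φ, hy, hy'] using h
      · simp [φ, hy, hy'] at h
    · exact S.mono (Nat.find_spec (hex y' hy')).1 ((hfib y' hy' y).1 h)
  refine mem_of_superset ((isOpen_push_fiber hφ (push φ w0)).mem_nhds rfl) ?_
  intro w hw
  have hw : push φ w = push φ w0 := hw
  have hc : ∀ j ≤ m, push (S.ρ j) w = push (S.ρ j) w0 := fun j hj =>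
    push_eq_of_factor φ _ (fun y y' h => S.mono hj (hfac y y' h)) _ _ hw
  have h0w : push (S.ρ 0) w ≠ 0 := by rw [hc 0 (Nat.zero_le _)]; exact h0
  have hρ : S.ρ m (S.ret x0 w) = S.ρ m (S.ret x0 w0) := by
    rw [S.ret_spec x0 w h0w, S.ret_spec x0 w0 h0]
    exact S.ball_congr x0 _ _ m hc
  apply hO'O
  by_contra hx
  have h1 := S.ret_odd x0 w h0w (Nat.find (hex _ hx))
  rw [← push_congr_fiber φ _ w (φ (S.ret x0 w)) _ (hfib _ hx), hw] at h1
  obtain ⟨y, hy, hyφ⟩ := push_ne_zero _ _ _ h1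
  have hy' : y ∉ O' := (Nat.find_spec (hex _ hx)).2 y ((hfib _ hx y).1 hyφ)
  have : y = S.ret x0 w0 := hm y (Finset.mem_insert_of_mem hy) _ (Finset.mem_insert_self _ _)
    ((hfac _ _ hyφ).trans hρ)
  exact hy' (this ▸ hxO')

include S in
theorem t2_BG : T2Space (BG X) := by
  refine ⟨fun w w' hne => ?_⟩
  have : ∃ m, push (S.ρ m) w ≠ push (S.ρ m) w' := by
    by_contra hc
    push Not at hc
    exact hne (S.push_sep w w' hc)
  obtain ⟨m, hm⟩ := this
  refine ⟨_, _, isOpen_push_fiber (S.lc m) (push (S.ρ m) w),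
    isOpen_push_fiber (S.lc m) (push (S.ρ m) w'), rfl, rfl, ?_⟩
  rw [Set.disjoint_left]
  intro v h1 h2
  exact hm (h1.symm.trans h2)

end Scales

end H86Rect
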