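import Pool.Agent.H86Z.Rect.A

/-! The cross space over `ℕ → ℤ` with levels. -/

set_option autoImplicit false
open Topology Set Filter

namespace H86Rect

/-- Vertices. -/
abbrev Vx : Type := ℕ → ℤ

/-- Agreement below `m`. -/
def agree (m : ℕ) (a b : Vx) : Prop := ∀ i < m, a i = b i

/-- Truncation at `m`. -/
def trunc (m : ℕ) (a : Vx) : Vx := fun i => if i < m then a i else 0

theorem agree_refl (m : ℕ) (a : Vx) : agree m a a := fun _ _ => rfl
theorem agree.symm {m : ℕ} {a b : Vx} (h : agree m a b) : agree m b a :=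
  fun i hi => (h i hi).symm
theorem agree.trans {m : ℕ} {a b c : Vx} (h : agree m a b) (h' : agree m b c) : agree m a c :=
  fun i hi => (h i hi).trans (h' i hi)
theorem agree.mono {j m : ℕ} {a b : Vx} (h : agree m a b) (hj : j ≤ m) : agree j a b :=
  fun i hi => h i (lt_of_lt_of_le hi hj)

theorem trunc_eq_iff {m : ℕ} {a b : Vx} : trunc m a = trunc m b ↔ agree m a b := by
  constructor
  · intro h i hi
    have := congrFun h i
    simpa [trunc, hi] using this
  · intro h
    funext i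
    by_cases hi : i < m
    · simp [trunc, hi, h i hi]
    · simp [trunc, hi]

theorem trunc_agree (m : ℕ) (a : Vx) : agree m (trunc m a) a := fun i hi => by simp [trunc, hi]

theorem exists_not_agree {a b : Vx} (h : a ≠ b) : ∃ m, ¬ agree m a b := by
  by_contra hc
  push Not at hc
  exact h (funext fun i => hc (i + 1) i (Nat.lt_succ_self i))

/-- Points of the cross space: ordered pairs of vertices on adjacent levels. -/
@[ext] structure Pt (f : Vx → ℚ) where
  a : Vx
  b : Vx
  h : |f a - f b| ≤ 1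

variable {f : Vx → ℚ}

/-- The vertex `u` as the pair `(u, u)`. -/
def vtx (f : Vx → ℚ) (u : Vx) : Pt f := ⟨u, u, by simp⟩

/-- The star of radius `n` at `u`. -/
def star (f : Vx → ℚ) (n : ℕ) (u : Vx) : Set (Pt f) :=
  {x | (x.a = u ∨ x.b = u) ∧ agree n x.a x.b}

theorem star_anti {j n : ℕ} (h : j ≤ n) (u : Vx) : star f n u ⊆ star f j u :=
  fun _ hx => ⟨hx.1, hx.2.mono h⟩

theorem vtx_mem_star (n : ℕ) (u : Vx) : vtx f u ∈ star f n u := ⟨Or.inl rfl, agree_refl _ _⟩

theorem star_agree {n : ℕ} {u : Vx} {x : Pt f} (hx : x ∈ star f n u) :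
    agree n x.a u ∧ agree n x.b u := by
  rcases hx with ⟨h | h, h'⟩
  · exact ⟨h ▸ agree_refl _ _, h ▸ h'.symm⟩
  · exact ⟨h ▸ h', h ▸ agree_refl _ _⟩

instance : TopologicalSpace (Pt f) where
  IsOpen U := ∀ u, vtx f u ∈ U → ∃ n, star f n u ⊆ U
  isOpen_univ := fun _ _ => ⟨0, subset_univ _⟩
  isOpen_inter := by
    intro s t hs ht u hu
    obtain ⟨n, hn⟩ := hs u hu.1
    obtain ⟨k, hk⟩ := ht u hu.2
    exact ⟨max n k, fun x hx => ⟨hn (star_anti (le_max_left _ _) u hx),
      hk (star_anti (le_max_right _ _) u hx)⟩⟩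
  isOpen_sUnion := by
    intro S hS u hu
    obtain ⟨U, hU, huU⟩ := hu
    obtain ⟨n, hn⟩ := hS U hU u huU
    exact ⟨n, fun x hx => ⟨U, hU, hn hx⟩⟩

theorem isOpen_Pt {U : Set (Pt f)} : IsOpen U ↔ ∀ u, vtx f u ∈ U → ∃ n, star f n u ⊆ U := Iff.rfl

theorem isOpen_star (n : ℕ) (u : Vx) : IsOpen (star f n u) := by
  refine isOpen_Pt.2 fun w hw => ?_
  have : w = u := by rcases hw.1 with h | h <;> exact h
  subst this
  exact ⟨n, Subset.rfl⟩

theorem isOpen_edge {x : Pt f} (hx : x.a ≠ x.b) : IsOpen ({x} : Set (Pt f)) := by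
  refine isOpen_Pt.2 fun w hw => ?_
  have : vtx f w = x := hw
  subst this
  exact absurd rfl hx

theorem eq_vtx {x : Pt f} (hx : x.a = x.b) : x = vtx f x.a := Pt.ext rfl hx.symm

theorem star_of_nhds {u : Vx} {U : Set (Pt f)} (hU : U ∈ 𝓝 (vtx f u)) : ∃ n, star f n u ⊆ U := by
  obtain ⟨t, htU, ht, hu⟩ := mem_nhds_iff.1 hU
  obtain ⟨n, hn⟩ := isOpen_Pt.1 ht u hu
  exact ⟨n, hn.trans htU⟩

/-- Small neighbourhoods: the ends of `x` are ends of `y`, and the ends of `y` are close to ends of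
`x`. -/
theorem small_nhds (m : ℕ) (x : Pt f) :
    {y : Pt f | y = x ∨ (x.a = x.b ∧ y ∈ star f m x.a)} ∈ 𝓝 x := by
  by_cases hx : x.a = x.b
  · refine mem_of_superset ((isOpen_star m x.a).mem_nhds ?_) fun y hy => Or.inr ⟨hx, hy⟩
    exact ⟨Or.inl rfl, hx ▸ agree_refl _ _⟩
  · exact mem_of_superset ((isOpen_edge hx).mem_nhds rfl) fun y hy => Or.inl hy

open Classical in
/-- The scale maps. -/
noncomputable def rho (m : ℕ) (x : Pt f) : Pt f :=
  if agree m x.a x.b then vtx f (trunc m x.a) else x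

theorem rho_pos {m : ℕ} {x : Pt f} (h : agree m x.a x.b) : rho m x = vtx f (trunc m x.a) :=
  if_pos h

theorem rho_neg {m : ℕ} {x : Pt f} (h : ¬ agree m x.a x.b) : rho m x = x := if_neg h

theorem rho_eq_edge {m : ℕ} {x z : Pt f} (h : ¬ agree m x.a x.b) (hz : rho m z = rho m x) :
    z = x := by
  rw [rho_neg h] at hz
  by_cases h' : agree m z.a z.b
  · rw [rho_pos h'] at hz
    subst hz
    exact absurd (agree_refl _ _) h
  · rwa [rho_neg h'] at hz

theorem rho_eq_vtx {m : ℕ} {u : Vx} {z : Pt f} (hz : rho m z = rho m (vtx f u)) :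
    agree m z.a z.b ∧ agree m z.a u := by
  by_cases h' : agree m z.a z.b
  · refine ⟨h', ?_⟩
    rw [rho_pos h', rho_pos (agree_refl _ _)] at hz
    exact trunc_eq_iff.1 (congrArg Pt.a hz)
  · have := rho_eq_edge h' hz.symm
    subst this
    exact absurd (agree_refl _ _) h'

theorem rho_sep (x y : Pt f) (h : ∀ m, rho m x = rho m y) : x = y := by
  by_cases hy : y.a = y.b
  · have e := eq_vtx hy
    have h1 : ∀ m, agree m x.a x.b ∧ agree m x.a y.a := fun m => rho_eq_vtx (e ▸ h m)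
    have h2 : x.a = x.b := by
      by_contra hc
      obtain ⟨m, hm⟩ := exists_not_agree hc
      exact hm (h1 m).1
    have h3 : x.a = y.a := by
      by_contra hc
      obtain ⟨m, hm⟩ := exists_not_agree hc
      exact hm (h1 m).2
    exact Pt.ext h3 (by rw [← h2, h3, hy])
  · obtain ⟨m, hm⟩ := exists_not_agree hy
    exact rho_eq_edge hm (h m)

/-- The cross space has a coarser ultrametric structure. -/
noncomputable def scales (f : Vx → ℚ) : Scales (Pt f) where
  ρ := rho
  step := by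
    intro m x
    by_cases h : agree (m + 1) x.a x.b
    · rw [rho_pos h, rho_pos (agree_refl _ _), rho_pos (h.mono (Nat.le_succ m))]
      congr 1
      exact trunc_eq_iff.2 ((trunc_agree _ _).mono (Nat.le_succ m))
    · rw [rho_neg h]
  lc := by
    intro m
    rw [IsLocallyConstant.iff_eventually_eq]
    intro x
    filter_upwards [small_nhds m x] with y hy
    rcases hy with rfl | ⟨hx, hy⟩
    · rfl
    · rw [rho_pos hy.2, rho_pos (hx ▸ agree_refl _ _)]
      congr 1
      exact trunc_eq_iff.2 (star_agree hy).1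
  sep := rho_sep
  base := by
    intro x O hO
    by_cases hx : x.a = x.b
    · have e := eq_vtx hx
      obtain ⟨n, hn⟩ := star_of_nhds (e ▸ hO : O ∈ 𝓝 (vtx f x.a))
      refine ⟨star f n x.a, isOpen_star _ _, ⟨Or.inl rfl, hx ▸ agree_refl _ _⟩, hn, ?_⟩
      intro y hy
      by_cases hy' : y.a = y.b
      · have hne : y.a ≠ x.a := fun hc => hy ⟨Or.inl hc, hy' ▸ agree_refl _ _⟩
        obtain ⟨m, hm⟩ := exists_not_agree hne
        refine ⟨m, fun z hz hz' => hm ?_⟩
        rw [eq_vtx hy'] at hz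
        obtain ⟨h1, h2⟩ := rho_eq_vtx hz
        rcases hz'.1 with h | h
        · exact h ▸ h2.symm
        · exact h ▸ h2.symm.trans h1
      · obtain ⟨m, hm⟩ := exists_not_agree hy'
        exact ⟨m, fun z hz => rho_eq_edge hm hz ▸ hy⟩
    · refine ⟨{x}, isOpen_edge hx, rfl, singleton_subset_iff.2 (mem_of_mem_nhds hO), ?_⟩
      intro y hy
      by_contra hc
      push Not at hc
      refine hy (rho_sep _ _ fun m => ?_)
      obtain ⟨z, hz, hz'⟩ := hc m
      rw [← hz, show z = x from hz']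

/-- Sharing an end. -/
def E (x y : Pt f) : Prop := x.a = y.a ∨ x.a = y.b ∨ x.b = y.a ∨ x.b = y.b

theorem E_refl (x : Pt f) : E x x := Or.inl rfl

theorem isClopen_E : IsClopen {p : Pt f × Pt f | E p.1 p.2} := by
  constructor
  · rw [← isOpen_compl_iff, isOpen_iff_mem_nhds]
    rintro ⟨x, y⟩ hp
    have hp : ¬ E x y := hp
    unfold E at hp
    push Not at hp
    obtain ⟨m1, h1⟩ := exists_not_agree hp.1
    obtain ⟨m2, h2⟩ := exists_not_agree hp.2.1
    obtain ⟨m3, h3⟩ := exists_not_agree hp.2.2.1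
    obtain ⟨m4, h4⟩ := exists_not_agree hp.2.2.2
    set m := max (max m1 m2) (max m3 m4)
    have key : ∀ (x x' : Pt f), (x' = x ∨ (x.a = x.b ∧ x' ∈ star f m x.a)) →
        (agree m x'.a x.a ∧ agree m x'.b x.b) := by
      rintro x x' (rfl | ⟨h, h'⟩)
      · exact ⟨agree_refl _ _, agree_refl _ _⟩
      · exact ⟨(star_agree h').1, h ▸ (star_agree h').2⟩
    refine mem_of_superset (prod_mem_nhds (small_nhds m x) (small_nhds m y)) ?_
    rintro ⟨x', y'⟩ ⟨hx', hy'⟩ hE
    obtain ⟨a1, a2⟩ := key x x' hx'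
    obtain ⟨b1, b2⟩ := key y y' hy'
    rcases hE with h | h | h | h
    · exact h1 ((a1.symm.trans (h ▸ b1)).mono (by omega))
    · exact h2 ((a1.symm.trans (h ▸ b2)).mono (by omega))
    · exact h3 ((a2.symm.trans (h ▸ b1)).mono (by omega))
    · exact h4 ((a2.symm.trans (h ▸ b2)).mono (by omega))
  · rw [isOpen_iff_mem_nhds]
    rintro ⟨x, y⟩ hp
    have key : ∀ (x x' : Pt f), (x' = x ∨ (x.a = x.b ∧ x' ∈ star f 0 x.a)) →
        ∀ u, (x.a = u ∨ x.b = u) → (x'.a = u ∨ x'.b = u) := by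
      rintro x x' (rfl | ⟨h, h'⟩) u hu
      · exact hu
      · have : x.a = u := by rcases hu with hu | hu; exacts [hu, h.trans hu]
        exact this ▸ h'.1
    refine mem_of_superset (prod_mem_nhds (small_nhds 0 x) (small_nhds 0 y)) ?_
    rintro ⟨x', y'⟩ ⟨hx', hy'⟩
    have : ∃ u, (x.a = u ∨ x.b = u) ∧ (y.a = u ∨ y.b = u) := by
      rcases hp with h | h | h | h
      · exact ⟨_, Or.inl rfl, Or.inl h.symm⟩
      · exact ⟨_, Or.inl rfl, Or.inr h.symm⟩
      · exact ⟨_, Or.inr rfl, Or.inl h.symm⟩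
      · exact ⟨_, Or.inr rfl, Or.inr h.symm⟩
    obtain ⟨u, hu1, hu2⟩ := this
    have k1 := key x x' hx' u hu1
    have k2 := key y y' hy' u hu2
    show E x' y'
    unfold E
    rcases k1 with k1 | k1 <;> rcases k2 with k2 | k2 <;> simp [k1, k2]

/-- The level. -/
def lev (x : Pt f) : ℚ := max (f x.a) (f x.b)

theorem lev_vtx (u : Vx) : lev (vtx f u) = f u := max_self _

theorem isOpen_lev (c : ℚ) : IsOpen {x : Pt f | c ≤ lev x} := by
  refine isOpen_Pt.2 fun u hu => ⟨0, fun x hx => ?_⟩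
  have hu : c ≤ f u := by simpa [lev_vtx] using hu
  rcases hx.1 with h | h
  · exact hu.trans (h ▸ le_max_left _ _)
  · exact hu.trans (h ▸ le_max_right _ _)

theorem lev_le_of_E {x y : Pt f} (h : E x y) : lev x ≤ lev y + 1 := by
  have h1 := abs_le.1 x.h
  have h2 : f y.a ≤ lev y := le_max_left _ _
  have h3 : f y.b ≤ lev y := le_max_right _ _
  rcases h with h | h | h | h <;> have h' := congrArg f h <;> refine max_le ?_ ?_ <;>
    linarith [h1.1, h1.2]

/-! ### The tail functional and non-separation -/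

theorem exists_tail : ∃ f : Vx →+ ℚ, (∀ m a, f (trunc m a) = 0) ∧ ∀ j : ℤ, f (fun _ => j) = j := by
  let P : Submodule ℚ (ℕ → ℚ) :=
    { carrier := {v | ∃ m, ∀ i, m ≤ i → v i = 0}
      add_mem' := by
        rintro a b ⟨m, hm⟩ ⟨k, hk⟩
        exact ⟨max m k, fun i hi => by
          simp [hm i ((le_max_left _ _).trans hi), hk i ((le_max_right _ _).trans hi)]⟩
      zero_mem' := ⟨0, fun _ _ => rfl⟩
      smul_mem' := by
        rintro c a ⟨m, hm⟩
        exact ⟨m, fun i hi => by simp [hm i hi]⟩ }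
  have h1 : (fun _ => (1 : ℚ)) ∉ P := by
    rintro ⟨m, hm⟩
    exact one_ne_zero (hm m le_rfl)
  obtain ⟨F, hF, hP⟩ := Submodule.exists_le_ker_of_notMem h1
  refine ⟨{ toFun := fun a => F (fun i => (a i : ℚ)) / F (fun _ => 1)
            map_zero' := by
              have : (fun i : ℕ => (((0 : Vx) i : ℤ) : ℚ)) = 0 := by funext i; simp
              rw [this, map_zero, zero_div]
            map_add' := by
              intro a b
              have : (fun i : ℕ => (((a + b) i : ℤ) : ℚ)) =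
                  (fun i => (a i : ℚ)) + fun i => (b i : ℚ) := by funext i; simp
              rw [this, map_add, add_div] }, ?_, ?_⟩
  · intro m a
    have : (fun i => ((trunc m a i : ℤ) : ℚ)) ∈ P := ⟨m, fun i hi => by simp [trunc, not_lt.2 hi]⟩
    have := hP this
    rw [LinearMap.mem_ker] at this
    show F _ / _ = 0
    rw [this, zero_div]
  · intro j
    show F (fun _ => (j : ℚ)) / _ = _
    have : (fun _ : ℕ => (j : ℚ)) = (j : ℚ) • fun _ => (1 : ℚ) := by funext i; simp
    rw [this, map_smul, smul_eq_mul, mul_div_assoc, div_self hF, mul_one]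

theorem isOpen_agree (m : ℕ) (a : Vx) : IsOpen {u : Vx | agree m u a} :=
  PiNat.isOpen_cylinder (E := fun _ => ℤ) a m

theorem exists_agree_subset {U : Set Vx} (hU : IsOpen U) {a : Vx} (ha : a ∈ U) :
    ∃ m, {u : Vx | agree m u a} ⊆ U := by
  obtain ⟨t, ⟨x, n, rfl⟩, hat, htU⟩ :=
    (PiNat.isTopologicalBasis_cylinders (fun _ => ℤ)).exists_subset_of_mem_open ha hU
  refine ⟨n, fun u hu => htU fun i hi => (hu i hi).trans (hat i hi)⟩

theorem meagre_translate {s : Set Vx} (hs : IsMeagre s) (t : Vx) :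
    IsMeagre ((fun u => u + t) ⁻¹' s) :=
  hs.preimage_of_isOpenMap (continuous_id.add continuous_const) (isOpenMap_add_right t)

theorem level_not_meagre (f : Vx →+ ℚ) (h0 : ∀ m a, f (trunc m a) = 0)
    (h1 : ∀ j : ℤ, f (fun _ => j) = j) (j : ℤ) (m : ℕ) (a : Vx) :
    ¬ IsMeagre ({u : Vx | f u = j} ∩ {u | agree m u a}) := by
  intro hM
  have hP : IsMeagre {u : Vx | f u = j} := by
    let ext : (Fin m → ℤ) → Vx := fun c i => if h : i < m then c ⟨i, h⟩ else 0
    refine IsMeagre.mono ?_ (isMeagre_iUnion fun c : Fin m → ℤ => meagre_translate hM (ext c))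
    intro u hu
    refine mem_iUnion.2 ⟨fun i => a i - u i, ?_, ?_⟩
    · have : ext (fun i => a i - u i) = trunc m (a - u) := by
        funext i
        by_cases hi : i < m <;> simp [ext, trunc, hi]
      show f _ = _
      rw [map_add, this, h0, add_zero]
      exact hu
    · intro i hi
      simp [ext, hi]
  have hq : ∀ q : ℚ, IsMeagre {u : Vx | f u = q} := by
    intro q
    by_cases hne : ∃ x, f x = q
    · obtain ⟨x, hx⟩ := hne
      refine IsMeagre.mono ?_ (meagre_translate hP ((fun _ => j) - x))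
      intro u hu
      show f _ = _
      rw [map_add, map_sub, h1, hx, show f u = q from hu]
      ring
    · have : {u : Vx | f u = q} = ∅ := by
        ext u
        simpa using fun h => hne ⟨u, h⟩
      rw [this]
      exact IsMeagre.empty
  refine not_isMeagre_of_isOpen (isOpen_univ (X := Vx)) univ_nonempty ?_
  refine IsMeagre.mono ?_ (isMeagre_iUnion hq)
  intro u _
  exact mem_iUnion.2 ⟨f u, rfl⟩

theorem step_down (f : Vx →+ ℚ) (h0 : ∀ m a, f (trunc m a) = 0)
    (h1 : ∀ j : ℤ, f (fun _ => j) = j) (F : Pt f → ℝ) (hF : Continuous F) (j : ℤ) (c : ℝ)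
    (hS : ¬ IsMeagre {u : Vx | f u = (j + 1 : ℤ) ∧ F (vtx f u) < c}) :
    ¬ IsMeagre {u : Vx | f u = j ∧ F (vtx f u) ≤ c} := by
  have : ∃ n, ¬ IsMeagre {u : Vx | f u = (j + 1 : ℤ) ∧ ∀ x ∈ star f n u, F x < c} := by
    by_contra hc
    push Not at hc
    refine hS (IsMeagre.mono ?_ (isMeagre_iUnion hc))
    intro u hu
    obtain ⟨n, hn⟩ := isOpen_Pt.1 (isOpen_lt hF continuous_const) u hu.2
    exact mem_iUnion.2 ⟨n, hu.1, fun x hx => hn hx⟩
  obtain ⟨n, hn⟩ := this
  have hne : (interior (closure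
      {u : Vx | f u = (j + 1 : ℤ) ∧ ∀ x ∈ star f n u, F x < c})).Nonempty := by
    by_contra hc
    exact hn (IsNowhereDense.isMeagre (not_nonempty_iff_eq_empty.1 hc))
  obtain ⟨a, ha⟩ := hne
  obtain ⟨m, hm⟩ := exists_agree_subset isOpen_interior ha
  intro hM
  refine level_not_meagre f h0 h1 j m a (IsMeagre.mono ?_ hM)
  rintro w ⟨hw, hwa⟩
  refine ⟨hw, ?_⟩
  by_contra hc
  push Not at hc
  obtain ⟨k, hk⟩ := isOpen_Pt.1 (isOpen_lt continuous_const hF) w hc
  have hcl := interior_subset (hm hwa)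
  obtain ⟨u, hu1, hu2⟩ := mem_closure_iff.1 hcl _ (isOpen_agree (max k n) w) (agree_refl _ _)
  have hx : |f u - f w| ≤ 1 := by
    rw [hu2.1, show f w = j from hw]
    push_cast
    norm_num
  have e1 := hu2.2 ⟨u, w, hx⟩ ⟨Or.inl rfl, hu1.mono (le_max_right _ _)⟩
  have e2 := hk (show (⟨u, w, hx⟩ : Pt f) ∈ star f k w from
    ⟨Or.inr rfl, hu1.mono (le_max_left _ _)⟩)
  exact lt_asymm e1 e2

theorem not_separated (f : Vx →+ ℚ) (h0 : ∀ m a, f (trunc m a) = 0)
    (h1 : ∀ j : ℤ, f (fun _ => j) = j) (n : ℕ) (F : Pt f → ℝ) (hF : Continuous F)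
    (hhi : ∀ x, (n : ℚ) ≤ lev x → F x < 1 / 2) (hlo : ∀ x, lev x < 1 → F x = 1) : False := by
  have key : ∀ i : ℕ, ¬ IsMeagre {u : Vx | f u = ((n : ℤ) - i : ℤ) ∧
      F (vtx f u) < 1 - 1 / ((i : ℝ) + 2)} := by
    intro i
    induction i with
    | zero =>
      intro hM
      refine level_not_meagre f h0 h1 n 0 0 (IsMeagre.mono ?_ hM)
      rintro u ⟨hu, -⟩
      have hu : f u = n := by simpa using hu
      refine ⟨by simpa using hu, ?_⟩
      have := hhi (vtx f u) (by rw [lev_vtx, hu])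
      norm_num at this ⊢
      exact this
    | succ i ih =>
      intro hM
      refine step_down f h0 h1 F hF ((n : ℤ) - (i + 1 : ℕ)) (1 - 1 / ((i : ℝ) + 2)) ?_
        (IsMeagre.mono ?_ hM)
      · have : (n : ℤ) - (i + 1 : ℕ) + 1 = n - i := by push_cast; ring
        rw [this]
        exact ih
      · rintro u ⟨hu1, hu2⟩
        refine ⟨hu1, hu2.trans_lt ?_⟩
        have : 1 / (((i + 1 : ℕ) : ℝ) + 2) < 1 / ((i : ℝ) + 2) := by
          apply one_div_lt_one_div_of_lt (by positivity)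
          push_cast
          linarith
        linarith
  obtain ⟨u, hu1, hu2⟩ := nonempty_of_not_isMeagre (key n)
  have := hlo (vtx f u) (by rw [lev_vtx, hu1]; simp)
  rw [this] at hu2
  have : (0 : ℝ) < 1 / ((n : ℝ) + 2) := by positivity
  linarith

end H86Rect
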