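import Pool.Agent.H86Z.Rect.B

/-! An involutive left loop `V × Bool`, and the refined product. -/

set_option autoImplicit false
open Topology Set Filter

namespace H86Rect

/-- A `T₀` space with a continuous involutive left-loop operation is regular. -/
theorem regular_of_op {G : Type} [TopologicalSpace G] (p : G → G → G) (e : G)
    (hp : Continuous fun q : G × G => p q.1 q.2) (hinv : ∀ s t, p s (p s t) = t)
    (hself : ∀ s, p s s = e) : RegularSpace G := by
  refine RegularSpace.of_exists_mem_nhds_isClosed_subset fun a s hs => ?_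
  have hae : p a e = a := by rw [← hself a, hinv]
  have h1 : (fun q : G × G => p q.1 q.2) ⁻¹' s ∈ 𝓝 (a, e) :=
    hp.continuousAt.preimage_mem_nhds (by simpa [hae] using hs)
  obtain ⟨V, hV, W, hW, hVW⟩ := mem_nhds_prod_iff.1 h1
  refine ⟨closure V, mem_of_superset hV subset_closure, isClosed_closure, fun y hy => ?_⟩
  have h2 : (fun v => p v y) ⁻¹' W ∈ 𝓝 y :=
    (hp.comp (continuous_id.prodMk continuous_const)).continuousAt.preimage_mem_nhds
      (by simpa [hself] using hW)
  obtain ⟨v, hv1, hv2⟩ := mem_closure_iff_nhds.1 hy _ h2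
  have : p v (p v y) ∈ s := hVW (show (v, p v y) ∈ V ×ˢ W from ⟨hv2, hv1⟩)
  rwa [hinv] at this

/-- The rectification attached to an involutive left-loop operation. -/
def rectify {G : Type} [TopologicalSpace G] (p : G → G → G)
    (hp : Continuous fun q : G × G => p q.1 q.2) (hinv : ∀ s t, p s (p s t) = t) :
    (G × G) ≃ₜ (G × G) where
  toFun q := (q.1, p q.1 q.2)
  invFun q := (q.1, p q.1 q.2)
  left_inv q := by simp [hinv]
  right_inv q := by simp [hinv]
  continuous_toFun := continuous_fst.prodMk hp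
  continuous_invFun := continuous_fst.prodMk hp

section Loop

variable {X : Type} (R : BG X → BG X → Prop)

/-- When the operation moves its second argument. -/
def cond (s t : BG X × Bool) : Prop :=
  (s.2 = false ∧ t.2 = false) ∨ (s.2 = true ∧ t.2 = true ∧ R s.1 t.1) ∨
    (s.2 = true ∧ t.2 = false ∧ R s.1 (s.1 + t.1))

open Classical in
/-- The operation. -/
noncomputable def op (s t : BG X × Bool) : BG X × Bool :=
  if cond R s t then (s.1 + t.1, xor s.2 t.2) else t

theorem add_add_cancel (x y : BG X) : x + (x + y) = y := by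
  rw [← add_assoc, add_self, zero_add]

theorem op_op (s t : BG X × Bool) : op R s (op R s t) = t := by
  by_cases h : cond R s t
  · have e : op R s t = (s.1 + t.1, xor s.2 t.2) := if_pos h
    have h' : cond R s (s.1 + t.1, xor s.2 t.2) := by
      obtain ⟨x, c⟩ := s
      obtain ⟨y, d⟩ := t
      rcases h with ⟨h1, h2⟩ | ⟨h1, h2, h3⟩ | ⟨h1, h2, h3⟩ <;> simp only at h1 h2 <;>
        subst h1 h2
      · exact Or.inl ⟨rfl, rfl⟩
      · exact Or.inr (Or.inr ⟨rfl, rfl, by simpa [add_add_cancel] using h3⟩)
      · exact Or.inr (Or.inl ⟨rfl, rfl, h3⟩)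
    rw [e, op, if_pos h']
    obtain ⟨x, c⟩ := s
    obtain ⟨y, d⟩ := t
    simp [add_add_cancel]
  · have e : op R s t = t := if_neg h
    rw [e, e]

theorem op_self (hR : ∀ x, R x x) (s : BG X × Bool) : op R s s = (0, false) := by
  have h : cond R s s := by
    obtain ⟨x, c⟩ := s
    cases c
    · exact Or.inl ⟨rfl, rfl⟩
    · exact Or.inr (Or.inl ⟨rfl, rfl, hR x⟩)
  rw [op, if_pos h, add_self]
  simp

variable [TopologicalSpace X]

theorem continuous_op (hR : IsClopen {q : BG X × BG X | R q.1 q.2}) :
    Continuous fun q : (BG X × Bool) × (BG X × Bool) => op R q.1 q.2 := by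
  have hb : ∀ (g : (BG X × Bool) × (BG X × Bool) → Bool), Continuous g → ∀ c,
      IsClopen {q | g q = c} := fun g hg c => (isClopen_discrete {c}).preimage hg
  have h1 := hb (fun q => q.1.2) (by fun_prop)
  have h2 := hb (fun q => q.2.2) (by fun_prop)
  have hadd : Continuous fun q : (BG X × Bool) × (BG X × Bool) => q.1.1 + q.2.1 :=
    continuous_add_BG.comp (f := fun q : (BG X × Bool) × (BG X × Bool) => (q.1.1, q.2.1))
      (by fun_prop)
  have h3 : IsClopen {q : (BG X × Bool) × (BG X × Bool) | R q.1.1 q.2.1} :=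
    hR.preimage (f := fun q : (BG X × Bool) × (BG X × Bool) => (q.1.1, q.2.1)) (by fun_prop)
  have h4 : IsClopen {q : (BG X × Bool) × (BG X × Bool) | R q.1.1 (q.1.1 + q.2.1)} :=
    hR.preimage (f := fun q : (BG X × Bool) × (BG X × Bool) => (q.1.1, q.1.1 + q.2.1))
      ((by fun_prop : Continuous fun q : (BG X × Bool) × (BG X × Bool) => q.1.1).prodMk hadd)
  have hc : IsClopen {q : (BG X × Bool) × (BG X × Bool) | cond R q.1 q.2} :=
    ((h1 false).inter (h2 false)).union
      (((h1 true).inter ((h2 true).inter h3)).union ((h1 true).inter ((h2 false).inter h4)))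
  classical
  unfold op
  refine Continuous.if ?_ (hadd.prodMk ?_) continuous_snd
  · rw [hc.frontier_eq]
    exact fun _ h => h.elim
  · exact (continuous_of_discreteTopology (f := fun q : Bool × Bool => xor q.1 q.2)).comp
      (f := fun q : (BG X × Bool) × (BG X × Bool) => (q.1.2, q.2.2)) (by fun_prop)

end Loop

/-- The refined product of copies of `H`. -/
def RP {H : Type} (O : ℕ → Set H) : Type := {g : ℕ → H // ∀ n, ∀ᶠ K in atTop, g K ∈ O n}

section Product

variable {H : Type} [TopologicalSpace H] (O : ℕ → Set H)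

/-- The map inducing the topology. -/
def RP.code (g : RP O) : (ℕ → H) × (ℕ × ℕ → Prop) :=
  (g.1, fun q => ∀ K, q.1 ≤ K → g.1 K ∈ O q.2)

instance : TopologicalSpace (RP O) := TopologicalSpace.induced (RP.code O) inferInstance

theorem RP.continuous_code : Continuous (RP.code O) := continuous_induced_dom

theorem RP.continuous_apply (K : ℕ) : Continuous fun g : RP O => g.1 K :=
  (_root_.continuous_apply K).comp (continuous_fst.comp (RP.continuous_code O))

theorem RP.isOpen_W (M n : ℕ) : IsOpen {g : RP O | ∀ K, M ≤ K → g.1 K ∈ O n} :=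
  continuous_Prop.1 ((_root_.continuous_apply (M, n)).comp
    (continuous_snd.comp (RP.continuous_code O)))

theorem RP.continuous_to {Y : Type} [TopologicalSpace Y] {F : Y → RP O}
    (h1 : ∀ K, Continuous fun y => (F y).1 K)
    (h2 : ∀ M n, IsOpen {y | ∀ K, M ≤ K → (F y).1 K ∈ O n}) : Continuous F :=
  continuous_induced_rng.2 ((continuous_pi h1).prodMk
    (continuous_pi fun q => continuous_Prop.2 (h2 q.1 q.2)))

theorem RP.t2 [T2Space H] : T2Space (RP O) :=
  T2Space.of_injective_continuous (f := fun g : RP O => g.1) Subtype.val_injective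
    (continuous_fst.comp (RP.continuous_code O))

variable {O} {p : H → H → H} {e : H}

/-- The coordinatewise operation. -/
def RP.op (hO : ∀ n, ∀ s ∈ O (n + 1), ∀ t ∈ O (n + 1), p s t ∈ O n) (g g' : RP O) : RP O :=
  ⟨fun K => p (g.1 K) (g'.1 K), fun n => by
    filter_upwards [g.2 (n + 1), g'.2 (n + 1)] with K h h' using hO n _ h _ h'⟩

theorem RP.continuous_op (hO : ∀ n, ∀ s ∈ O (n + 1), ∀ t ∈ O (n + 1), p s t ∈ O n)
    (hopen : ∀ n, IsOpen (O n)) (hp : Continuous fun q : H × H => p q.1 q.2) :
    Continuous fun q : RP O × RP O => RP.op hO q.1 q.2 := by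
  have hK : ∀ K, Continuous fun q : RP O × RP O => p (q.1.1 K) (q.2.1 K) := fun K =>
    hp.comp (f := fun q : RP O × RP O => (q.1.1 K, q.2.1 K))
      (((RP.continuous_apply O K).comp continuous_fst).prodMk
        ((RP.continuous_apply O K).comp continuous_snd))
  refine RP.continuous_to O hK fun M n => isOpen_iff_mem_nhds.2 fun q hq => ?_
  obtain ⟨N, hN⟩ := eventually_atTop.1 ((q.1.2 (n + 1)).and (q.2.2 (n + 1)))
  have h1 : ∀ᶠ q' in 𝓝 q, ∀ K, N ≤ K → (q' : RP O × RP O).1.1 K ∈ O (n + 1) :=
    ((RP.isOpen_W O N (n + 1)).preimage continuous_fst).mem_nhds fun K h => (hN K h).1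
  have h2 : ∀ᶠ q' in 𝓝 q, ∀ K, N ≤ K → (q' : RP O × RP O).2.1 K ∈ O (n + 1) :=
    ((RP.isOpen_W O N (n + 1)).preimage continuous_snd).mem_nhds fun K h => (hN K h).2
  have h3 : ∀ᶠ q' in 𝓝 q, ∀ K ∈ Finset.Ico M N,
      p ((q' : RP O × RP O).1.1 K) (q'.2.1 K) ∈ O n :=
    (Finset.eventually_all _).2 fun K hK' =>
      ((hopen n).preimage (hK K)).mem_nhds (hq K (Finset.mem_Ico.1 hK').1)
  filter_upwards [h1, h2, h3] with q' a1 a2 a3 K hMK
  rcases lt_or_ge K N with h | h
  · exact a3 K (Finset.mem_Ico.2 ⟨hMK, h⟩)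
  · exact hO n _ (a1 K h) _ (a2 K h)

/-- The neutral point. -/
def RP.one (he : ∀ n, e ∈ O n) : RP O := ⟨fun _ => e, fun n => Eventually.of_forall fun _ => he n⟩

/-- The `K`-th coordinate inclusion. -/
def RP.inc (he : ∀ n, e ∈ O n) (K : ℕ) (h : H) : RP O :=
  ⟨fun L => if L = K then h else e, fun n => by
    filter_upwards [eventually_ne_atTop K] with L hL
    rw [if_neg hL]
    exact he n⟩

theorem RP.continuous_inc (he : ∀ n, e ∈ O n) (hopen : ∀ n, IsOpen (O n)) (K : ℕ) :
    Continuous (RP.inc he K) := by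
  refine RP.continuous_to O (fun L => ?_) fun M n => ?_
  · by_cases h : L = K
    · simp only [RP.inc, if_pos h]
      exact continuous_id
    · simp only [RP.inc, if_neg h]
      exact continuous_const
  · by_cases h : M ≤ K
    · convert hopen n using 1
      ext y
      constructor
      · intro hy
        simpa [RP.inc] using hy K h
      · intro hy L _
        by_cases h' : L = K
        · simpa [RP.inc, h'] using hy
        · simpa [RP.inc, h'] using he n
    · convert isOpen_univ (X := H) using 1
      refine eq_univ_of_forall fun y L hL => ?_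
      have h' : L ≠ K := fun h'' => h (h'' ▸ hL)
      simpa [RP.inc, h'] using he n

theorem RP.tendsto_inc (he : ∀ n, e ∈ O n) (hanti : ∀ j n, j ≤ n → O n ⊆ O j) (h : ℕ → H)
    (hh : ∀ n, h n ∈ O n) : Tendsto (fun n => RP.inc he n (h n)) atTop (𝓝 (RP.one he)) := by
  rw [nhds_induced, tendsto_comap_iff]
  refine Tendsto.prodMk_nhds (tendsto_pi_nhds.2 fun L => ?_) (tendsto_pi_nhds.2 fun q => ?_)
  · refine tendsto_const_nhds.congr' ?_
    filter_upwards [eventually_ne_atTop L] with n hn
    simp [RP.inc, RP.one, hn.symm]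
  · refine tendsto_const_nhds.congr' ?_
    filter_upwards [eventually_ge_atTop q.2] with n hn
    refine propext ⟨fun _ K _ => ?_, fun _ K _ => he _⟩
    by_cases h' : K = n
    · simpa [RP.inc, h'] using hanti _ _ hn (hh n)
    · simpa [RP.inc, h'] using he _

theorem RP.not_completelyRegular (he : ∀ n, e ∈ O n) (hopen : ∀ n, IsOpen (O n))
    (hanti : ∀ j n, j ≤ n → O n ⊆ O j)
    (hns : ∀ n, ∀ F : H → ℝ, Continuous F → (∀ h ∈ O n, F h < 1 / 2) →
      (∀ h, h ∉ O 1 → F h = 1) → False) : ¬ CompletelyRegularSpace (RP O) := by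
  intro hcr
  obtain ⟨F, hF, hF0, hF1⟩ := hcr.completely_regular (RP.one he)
    {g : RP O | ∀ K, 0 ≤ K → g.1 K ∈ O 1}ᶜ (RP.isOpen_W O 0 1).isClosed_compl
    (fun h => h fun _ _ => he 1)
  have hF' : Continuous fun g => (F g : ℝ) := continuous_subtype_val.comp hF
  have : ∃ n, ∀ h ∈ O n, (F (RP.inc he n h) : ℝ) < 1 / 2 := by
    by_contra hc
    push Not at hc
    choose h hh hh' using hc
    have := (hF'.tendsto _).comp (RP.tendsto_inc he hanti h hh)
    have := ge_of_tendsto' this hh'
    rw [hF0] at this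
    norm_num at this
  obtain ⟨n, hn⟩ := this
  refine hns n (fun h => F (RP.inc he n h)) (hF'.comp (RP.continuous_inc he hopen n)) hn ?_
  intro h hh
  have : F (RP.inc he n h) = 1 := hF1 fun h' => hh (by simpa [RP.inc] using h' n (Nat.zero_le _))
  simp [this]

end Product

/-- The example: a Hausdorff space with countably many continuous maps to discrete spaces
separating points and a continuous involutive left-loop operation, not completely regular. -/
theorem exists_example : ∃ (G : Type) (_ : TopologicalSpace G) (p : G → G → G) (e : G),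
    T2Space G ∧ (Continuous fun q : G × G => p q.1 q.2) ∧ (∀ s t, p s (p s t) = t) ∧
    (∀ s, p s s = e) ∧ ¬ CompletelyRegularSpace G ∧
    ∀ x : G, ∃ U : ℕ × ℕ → Set G, (∀ i, IsOpen (U i)) ∧ ⋂ i, U i = {x} := by
  obtain ⟨f, h0, h1⟩ := exists_tail
  let S := scales f
  let r : BG (Pt f) → Pt f := S.ret (vtx f 0)
  have hr : Continuous r := S.continuous_ret _
  let R : BG (Pt f) → BG (Pt f) → Prop := fun x z => E (r x) (r z)
  have hR : IsClopen {q : BG (Pt f) × BG (Pt f) | R q.1 q.2} :=
    isClopen_E.preimage (f := fun q : BG (Pt f) × BG (Pt f) => (r q.1, r q.2)) (by fun_prop)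
  let O : ℕ → Set (BG (Pt f) × Bool) := fun n => {s | s.2 = false ∨ (n : ℚ) ≤ lev (r s.1)}
  have hopen : ∀ n, IsOpen (O n) := fun n =>
    ((isOpen_discrete {false}).preimage continuous_snd).union
      ((isOpen_lev n).preimage (hr.comp continuous_fst))
  have he : ∀ n, ((0, false) : BG (Pt f) × Bool) ∈ O n := fun n => Or.inl rfl
  have hanti : ∀ j n, j ≤ n → O n ⊆ O j := fun j n h s hs =>
    hs.imp id fun h' => le_trans (by exact_mod_cast h) h'
  have hO : ∀ n, ∀ s ∈ O (n + 1), ∀ t ∈ O (n + 1), op R s t ∈ O n := by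
    intro n s hs t ht
    by_cases h : cond R s t
    · rw [op, if_pos h]
      rcases h with ⟨a1, a2⟩ | ⟨a1, a2, a3⟩ | ⟨a1, a2, a3⟩
      · exact Or.inl (by simp [a1, a2])
      · exact Or.inl (by simp [a1, a2])
      · right
        have h2 := lev_le_of_E a3
        rcases hs with hs | hs
        · rw [a1] at hs; cases hs
        · push_cast at hs
          show (n : ℚ) ≤ lev (r (s.1 + t.1))
          linarith
    · rw [op, if_neg h]
      exact hanti _ _ (Nat.le_succ n) ht
  haveI := S.t2_BG
  refine ⟨RP O, inferInstance, RP.op hO, RP.one he, RP.t2 O,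
    RP.continuous_op hO hopen (continuous_op R hR), fun s t => ?_, fun s => ?_, ?_, ?_⟩
  · exact Subtype.ext (funext fun K => op_op R _ _)
  · exact Subtype.ext (funext fun K => op_self R (fun x => E_refl _) _)
  · refine RP.not_completelyRegular he hopen hanti fun n F hF hhi hlo => ?_
    refine not_separated f h0 h1 n (fun x => F (gen x, true))
      (hF.comp (continuous_gen.prodMk continuous_const)) (fun x hx => hhi _ (Or.inr ?_))
      fun x hx => hlo _ ?_
    · simpa [r, S.ret_gen] using hx
    · rintro (h | h)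
      · cases h
      · simp only [r, S.ret_gen] at h
        push_cast at h
        linarith
  · intro x
    refine ⟨fun i => {g | push (S.ρ i.2) (g.1 i.1).1 = push (S.ρ i.2) (x.1 i.1).1 ∧
      (g.1 i.1).2 = (x.1 i.1).2}, fun i => ?_, ?_⟩
    · exact ((isOpen_push_fiber (S.lc i.2) _).preimage
        (continuous_fst.comp (RP.continuous_apply O i.1))).inter
        ((isOpen_discrete {(x.1 i.1).2}).preimage
          (continuous_snd.comp (RP.continuous_apply O i.1)))
    · ext g
      simp only [mem_iInter, mem_setOf_eq, mem_singleton_iff]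
      constructor
      · intro h
        refine Subtype.ext (funext fun K => Prod.ext ?_ (h (K, 0)).2)
        exact S.push_sep _ _ fun m => (h (K, m)).1
      · rintro rfl i
        exact ⟨rfl, rfl⟩

end H86Rect
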