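import Pool.Agent.H86Z.Rect.C

/-! A twisted double cover of the left loop `V × Bool`, which is not submetrizable. -/

set_option autoImplicit false
open Topology Set Filter

namespace H86Rect

variable {f : Vx → ℚ}

/-- `u` is an end of `x`. -/
def IsEnd (x : Pt f) (u : Vx) : Prop := x.a = u ∨ x.b = u

open Classical in
/-- The twisting cocycle. -/
noncomputable def tau (x y : Pt f) : Bool := decide (x.a ≠ y.a ∧ (x.a = y.b ∨ x.b = y.a))

open Classical in
theorem tau_eq {x y : Pt f} {u : Vx} (hx : IsEnd x u) (hy : IsEnd y u) :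
    tau x y = xor (decide (x.a ≠ u)) (decide (y.a ≠ u)) := by
  unfold tau
  by_cases h1 : x.a = u <;> by_cases h2 : y.a = u
  · simp [h1, h2]
  · have h3 : y.b = u := hy.resolve_left h2
    simp [h1, h2, h3, Ne.symm h2]
  · have h3 : x.b = u := hx.resolve_left h1
    simp [h1, h2, h3]
  · have h3 : y.b = u := hy.resolve_left h2
    have h4 : x.b = u := hx.resolve_left h1
    simp [h1, h2, h3, h4, Ne.symm h2]

theorem tau_self (x : Pt f) : tau x x = false := by simp [tau]

theorem exists_end {x y : Pt f} (h : E x y) : ∃ u, IsEnd x u ∧ IsEnd y u := by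
  rcases h with h | h | h | h
  · exact ⟨_, Or.inl rfl, Or.inl h.symm⟩
  · exact ⟨_, Or.inl rfl, Or.inr h.symm⟩
  · exact ⟨_, Or.inr rfl, Or.inl h.symm⟩
  · exact ⟨_, Or.inr rfl, Or.inr h.symm⟩

theorem E_of_end {x y : Pt f} {u : Vx} (hx : IsEnd x u) (hy : IsEnd y u) : E x y := by
  unfold E
  rcases hx with k1 | k1 <;> rcases hy with k2 | k2 <;> simp [k1, k2]

theorem ends_nhds (x : Pt f) : ∀ᶠ x' in 𝓝 x, ∀ u, IsEnd x u → IsEnd x' u := by
  filter_upwards [small_nhds 0 x] with x' hx' u hu
  rcases hx' with rfl | ⟨h, h'⟩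
  · exact hu
  · have : x.a = u := by rcases hu with hu | hu; exacts [hu, h.trans hu]
    exact this ▸ h'.1

theorem tau_cocycle {x0 y0 x y : Pt f} (h : E x0 y0) (hx : ∀ u, IsEnd x0 u → IsEnd x u)
    (hy : ∀ u, IsEnd y0 u → IsEnd y u) :
    tau x y = xor (tau x0 x) (xor (tau x0 y0) (tau y0 y)) := by
  classical
  obtain ⟨u, h1, h2⟩ := exists_end h
  rw [tau_eq (hx u h1) (hy u h2), tau_eq h1 (hx u h1), tau_eq h1 h2, tau_eq h2 (hy u h2)]
  generalize decide (x.a ≠ u) = a
  generalize decide (y.a ≠ u) = b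
  generalize decide (x0.a ≠ u) = c
  generalize decide (y0.a ≠ u) = d
  cases a <;> cases b <;> cases c <;> cases d <;> rfl

/-- The twisted double cover. -/
def Tw (_r : BG (Pt f) → Pt f) : Type := (BG (Pt f) × Bool) × Bool

variable {r : BG (Pt f) → Pt f}

open Classical in
/-- Sheet coordinates. -/
noncomputable def sheet (x0 : Pt f) (z : Tw r) : Bool :=
  if z.1.2 = true then (if E x0 (r z.1.1) then xor z.2 (tau x0 (r z.1.1)) else false) else z.2

/-- The map inducing the topology. -/
noncomputable def Tw.code (z : Tw r) : (BG (Pt f) × Bool) × (Pt f → Bool) :=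
  (z.1, fun x0 => sheet x0 z)

noncomputable instance : TopologicalSpace (Tw r) := TopologicalSpace.induced Tw.code inferInstance

theorem Tw.continuous_code : Continuous (Tw.code (r := r)) := continuous_induced_dom

theorem Tw.continuous_base : Continuous fun z : Tw r => z.1 :=
  (continuous_fst.comp (Tw.continuous_code (r := r)) :)

theorem Tw.continuous_sheet (x0 : Pt f) : Continuous fun z : Tw r => sheet x0 z :=
  (continuous_apply x0).comp (continuous_snd.comp Tw.continuous_code)

theorem sheet_self (z : Tw r) : sheet (r z.1.1) z = z.2 := by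
  unfold sheet
  by_cases h : z.1.2 = true
  · rw [if_pos h, if_pos (E_refl _), tau_self, Bool.xor_false]
  · rw [if_neg h]

theorem Tw.code_injective : Function.Injective (Tw.code (r := r)) := by
  intro z z' h
  have h1 : z.1 = z'.1 := (congrArg Prod.fst h :)
  have h2 : sheet (r z.1.1) z = sheet (r z.1.1) z' := congrFun (congrArg Prod.snd h) _
  rw [sheet_self, h1, sheet_self] at h2
  exact Prod.ext h1 h2

/-- The local twist. -/
noncomputable def loc (z0 z : Tw r) : Bool :=
  if z0.1.2 = true then tau (r z0.1.1) (r z.1.1) else false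

theorem eventually_bool {Y : Type} [TopologicalSpace Y] {g : Y → Bool} {y0 : Y}
    (hg : ContinuousAt g y0) : ∀ᶠ y in 𝓝 y0, g y = g y0 :=
  hg.preimage_mem_nhds ((isOpen_discrete {g y0}).mem_nhds rfl)

theorem Tw.local_form (hr : Continuous r) (z0 : Tw r) :
    ∀ᶠ z in 𝓝 z0, z.1.2 = z0.1.2 ∧ (∀ u, IsEnd (r z0.1.1) u → IsEnd (r z.1.1) u) ∧
      z.2 = xor z0.2 (loc z0 z) := by
  have h1 := eventually_bool (continuous_snd.comp (Tw.continuous_base (r := r))).continuousAt
    (y0 := z0)
  have h2 := eventually_bool (Tw.continuous_sheet (r := r) (r z0.1.1)).continuousAt (y0 := z0)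
  have h3 := (hr.comp (continuous_fst.comp (Tw.continuous_base (r := r)))).continuousAt.eventually
    (ends_nhds (r z0.1.1))
  filter_upwards [h1, h2, h3] with z a1 a2 a3
  have a1 : z.1.2 = z0.1.2 := a1
  refine ⟨a1, a3, ?_⟩
  rw [sheet_self] at a2
  unfold sheet at a2
  unfold loc
  by_cases h : z0.1.2 = true
  · have hE : E (r z0.1.1) (r z.1.1) := E_of_end (Or.inl rfl) (a3 _ (Or.inl rfl))
    rw [if_pos (a1.trans h), if_pos hE] at a2
    rw [if_pos h, ← a2]
    simp
  · rw [if_neg (a1 ▸ h)] at a2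
    rw [if_neg h, a2, Bool.xor_false]

theorem Tw.continuousAt_to (hr : Continuous r) {Y : Type} [TopologicalSpace Y] {F : Y → Tw r}
    {y0 : Y} (h1 : ContinuousAt (fun y => (F y).1) y0)
    (h2 : ∀ᶠ y in 𝓝 y0, (F y).2 = xor (F y0).2 (loc (F y0) (F y))) : ContinuousAt F y0 := by
  unfold ContinuousAt
  rw [nhds_induced, tendsto_comap_iff]
  refine Tendsto.prodMk_nhds h1 (tendsto_pi_nhds.2 fun x1 => ?_)
  refine tendsto_const_nhds.congr' ?_
  have a1 := eventually_bool (continuous_snd.continuousAt.comp h1)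
  have hx : ContinuousAt (fun y => r (F y).1.1) y0 :=
    hr.continuousAt.comp (continuous_fst.continuousAt.comp h1)
  have a2 := hx.eventually (ends_nhds (r (F y0).1.1))
  have a3 : ∀ᶠ y in 𝓝 y0, ¬ E x1 (r (F y0).1.1) → ¬ E x1 (r (F y).1.1) := by
    by_cases hE : E x1 (r (F y0).1.1)
    · exact Eventually.of_forall fun _ h => absurd hE h
    · have := (continuousAt_const.prodMk hx).preimage_mem_nhds
        ((isClopen_E (f := f)).isClosed.isOpen_compl.mem_nhds (x := (x1, r (F y0).1.1)) hE)
      filter_upwards [this] with y hy _ using hy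
  filter_upwards [h2, a1, a2, a3] with y b0 b1 b2 b3
  have b1 : (F y).1.2 = (F y0).1.2 := b1
  show sheet x1 (F y0) = sheet x1 (F y)
  unfold sheet
  unfold loc at b0
  by_cases h : (F y0).1.2 = true
  · rw [if_pos h] at b0
    rw [if_pos h, if_pos (b1.trans h)]
    by_cases hE : E x1 (r (F y0).1.1)
    · obtain ⟨u, hu1, hu2⟩ := exists_end hE
      rw [if_pos hE, if_pos (E_of_end hu1 (b2 u hu2)), b0,
        tau_cocycle hE (fun _ h => h) b2, tau_self]
      generalize tau (r (F y0).1.1) (r (F y).1.1) = a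
      generalize tau x1 (r (F y0).1.1) = b
      generalize (F y0).2 = c
      cases a <;> cases b <;> cases c <;> rfl
    · rw [if_neg hE, if_neg (b3 hE)]
  · rw [if_neg h] at b0
    rw [if_neg h, if_neg (b1 ▸ h), b0, Bool.xor_false]

/-- The relation used by the loop. -/
def RR (r : BG (Pt f) → Pt f) (x z : BG (Pt f)) : Prop := E (r x) (r z)

/-- The twist of the operation. -/
noncomputable def tw (r : BG (Pt f) → Pt f) (s t : BG (Pt f) × Bool) : Bool :=
  if s.2 = true then tau (r s.1) (r (if t.2 = true then t.1 else s.1 + t.1)) else false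

open Classical in
/-- The operation on the double cover. -/
noncomputable def opT (s t : Tw r) : Tw r :=
  if cond (RR r) s.1 t.1 then ((s.1.1 + t.1.1, xor s.1.2 t.1.2), xor s.2 (xor t.2 (tw r s.1 t.1)))
  else t

theorem opT_fst (s t : Tw r) : (opT s t).1 = op (RR r) s.1 t.1 := by
  unfold opT op
  split_ifs <;> rfl

theorem opT_opT (s t : Tw r) : opT s (opT s t) = t := by
  by_cases h : cond (RR r) s.1 t.1
  · have e : opT s t = ((s.1.1 + t.1.1, xor s.1.2 t.1.2), xor s.2 (xor t.2 (tw r s.1 t.1))) :=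
      if_pos h
    obtain ⟨⟨x, c⟩, i⟩ := s
    obtain ⟨⟨y, d⟩, j⟩ := t
    have h' : cond (RR r) (x, c) (x + y, xor c d) := by
      rcases h with ⟨h1, h2⟩ | ⟨h1, h2, h3⟩ | ⟨h1, h2, h3⟩ <;> simp only at h1 h2 <;>
        subst h1 h2
      · exact Or.inl ⟨rfl, rfl⟩
      · exact Or.inr (Or.inr ⟨rfl, rfl, by simpa [add_add_cancel] using h3⟩)
      · exact Or.inr (Or.inl ⟨rfl, rfl, h3⟩)
    rw [e, opT, if_pos h']
    refine Prod.ext (by simp [add_add_cancel]) ?_
    have : tw r (x, c) (x + y, xor c d) = tw r (x, c) (y, d) := by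
      cases c <;> cases d <;> simp [tw, add_add_cancel]
    simp only [this]
    generalize tw r (x, c) (y, d) = a
    cases a <;> cases i <;> cases j <;> rfl
  · have e : opT s t = t := if_neg h
    rw [e, e]

theorem opT_self (s : Tw r) : opT s s = ((0, false), false) := by
  obtain ⟨⟨x, c⟩, i⟩ := s
  have h : cond (RR r) (x, c) (x, c) := by
    cases c
    · exact Or.inl ⟨rfl, rfl⟩
    · exact Or.inr (Or.inl ⟨rfl, rfl, E_refl _⟩)
  rw [opT, if_pos h]
  cases c <;> cases i <;> simp [add_self, tw, tau_self]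

theorem isClopen_cond {X : Type} [TopologicalSpace X] (R : BG X → BG X → Prop)
    (hR : IsClopen {q : BG X × BG X | R q.1 q.2}) :
    IsClopen {q : (BG X × Bool) × (BG X × Bool) | cond R q.1 q.2} := by
  have hb : ∀ (g : (BG X × Bool) × (BG X × Bool) → Bool), Continuous g → ∀ c,
      IsClopen {q | g q = c} := fun g hg c => (isClopen_discrete {c}).preimage hg
  have h1 := hb (fun q => q.1.2) (by fun_prop)
  have h2 := hb (fun q => q.2.2) (by fun_prop)
  have hadd : Continuous fun q : (BG X × Bool) × (BG X × Bool) => q.1.1 + q.2.1 :=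
    continuous_add_BG.comp (f := fun q : (BG X × Bool) × (BG X × Bool) => (q.1.1, q.2.1))
      (by fun_prop)
  have h3 : IsClopen {q : (BG X × Bool) × (BG X × Bool) | R q.1.1 q.2.1} :=
    hR.preimage (f := fun q : (BG X × Bool) × (BG X × Bool) => (q.1.1, q.2.1)) (by fun_prop)
  have h4 : IsClopen {q : (BG X × Bool) × (BG X × Bool) | R q.1.1 (q.1.1 + q.2.1)} :=
    hR.preimage (f := fun q : (BG X × Bool) × (BG X × Bool) => (q.1.1, q.1.1 + q.2.1))
      ((by fun_prop : Continuous fun q : (BG X × Bool) × (BG X × Bool) => q.1.1).prodMk hadd)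
  exact ((h1 false).inter (h2 false)).union
      (((h1 true).inter ((h2 true).inter h3)).union ((h1 true).inter ((h2 false).inter h4)))

theorem continuous_opT (hr : Continuous r) :
    Continuous fun q : Tw r × Tw r => opT q.1 q.2 := by
  have hR : IsClopen {q : BG (Pt f) × BG (Pt f) | RR r q.1 q.2} :=
    isClopen_E.preimage (f := fun q : BG (Pt f) × BG (Pt f) => (r q.1, r q.2)) (by fun_prop)
  have hb : Continuous fun q : Tw r × Tw r => (q.1.1, q.2.1) :=
    (Tw.continuous_base.comp continuous_fst).prodMk (Tw.continuous_base.comp continuous_snd)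
  refine continuous_iff_continuousAt.2 fun q0 => Tw.continuousAt_to hr ?_ ?_
  · simp only [opT_fst]
    exact ((continuous_op (RR r) hR).comp hb).continuousAt
  have hadd : Continuous fun q : Tw r × Tw r => r (q.1.1.1 + q.2.1.1) :=
    hr.comp (continuous_add_BG.comp
      (f := fun q : Tw r × Tw r => (q.1.1.1, q.2.1.1))
      ((continuous_fst.comp (continuous_fst.comp hb)).prodMk
        (continuous_fst.comp (continuous_snd.comp hb))))
  have a1 := continuous_fst.continuousAt.eventually (Tw.local_form hr q0.1)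
  have a2 := continuous_snd.continuousAt.eventually (Tw.local_form hr q0.2)
  have a3 := hadd.continuousAt.eventually (ends_nhds (r (q0.1.1.1 + q0.2.1.1)))
  have a4 : ∀ᶠ q : Tw r × Tw r in 𝓝 q0, ¬ cond (RR r) q0.1.1 q0.2.1 →
      ¬ cond (RR r) q.1.1 q.2.1 := by
    by_cases hc : cond (RR r) q0.1.1 q0.2.1
    · exact Eventually.of_forall fun _ h => absurd hc h
    · have := hb.continuousAt.preimage_mem_nhds
        ((isClopen_cond (RR r) hR).isClosed.isOpen_compl.mem_nhds (x := (q0.1.1, q0.2.1)) hc)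
      filter_upwards [this] with y hy _ using hy
  filter_upwards [a1, a2, a3, a4] with q b1 b2 b3 b4
  obtain ⟨⟨⟨x0, c0⟩, i0⟩, ⟨⟨y0, d0⟩, j0⟩⟩ := q0
  obtain ⟨⟨⟨x, c⟩, i⟩, ⟨⟨y, d⟩, j⟩⟩ := q
  obtain ⟨b11, b12, b13⟩ := b1
  obtain ⟨b21, b22, b23⟩ := b2
  simp only at b11 b12 b13 b21 b22 b23 b3 b4
  subst b11 b21
  by_cases hc : cond (RR r) (x0, c) (y0, d)
  · rcases hc with ⟨h1, h2⟩ | ⟨h1, h2, h3⟩ | ⟨h1, h2, h3⟩ <;> simp only at h1 h2 <;> subst h1 h2
    · have k0 : cond (RR r) (x0, false) (y0, false) := Or.inl ⟨rfl, rfl⟩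
      have k1 : cond (RR r) (x, false) (y, false) := Or.inl ⟨rfl, rfl⟩
      simp only [opT, if_pos k0, if_pos k1]
      simp [loc, tw] at b13 b23 ⊢
      simp [b13, b23]
    · obtain ⟨u, hu1, hu2⟩ := exists_end h3
      have k0 : cond (RR r) (x0, true) (y0, true) := Or.inr (Or.inl ⟨rfl, rfl, h3⟩)
      have k1 : cond (RR r) (x, true) (y, true) :=
        Or.inr (Or.inl ⟨rfl, rfl, E_of_end (b12 u hu1) (b22 u hu2)⟩)
      simp only [opT, if_pos k0, if_pos k1]
      simp only [loc, tw, if_true, Bool.xor_self, Bool.false_eq_true, if_false] at b13 b23 ⊢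
      rw [b13, b23, tau_cocycle h3 b12 b22]
      generalize tau (r x0) (r x) = a
      generalize tau (r x0) (r y0) = b
      generalize tau (r y0) (r y) = c
      cases a <;> cases b <;> cases c <;> cases i0 <;> cases j0 <;> rfl
    · obtain ⟨u, hu1, hu2⟩ := exists_end h3
      have k0 : cond (RR r) (x0, true) (y0, false) := Or.inr (Or.inr ⟨rfl, rfl, h3⟩)
      have k1 : cond (RR r) (x, true) (y, false) :=
        Or.inr (Or.inr ⟨rfl, rfl, E_of_end (b12 u hu1) (b3 u hu2)⟩)
      simp only [opT, if_pos k0, if_pos k1]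
      simp only [loc, tw, if_true, Bool.xor_false, Bool.false_eq_true, if_false] at b13 b23 ⊢
      rw [b13, b23, tau_cocycle h3 b12 b3]
      generalize tau (r x0) (r x) = a
      generalize tau (r x0) (r (x0 + y0)) = b
      generalize tau (r (x0 + y0)) (r (x + y)) = c
      cases a <;> cases b <;> cases c <;> cases i0 <;> cases j0 <;> rfl
  · simp only [opT, if_neg hc, if_neg (b4 hc)]
    exact b23

theorem not_submetrizable {r : BG (Pt fun _ => 0) → Pt fun _ => 0} (hr : Continuous r)
    (hgen : ∀ x, r (gen x) = x) {Y : Type} [MetricSpace Y] (F : Tw r → Y) (hF : Continuous F)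
    (hinj : Function.Injective F) : False := by
  classical
  let P : Vx → Bool → Y := fun u i => F ((gen (vtx _ u), true), i)
  have hloc : ∀ u, ∃ k n : ℕ, 6 * (1 / ((k : ℝ) + 1)) < dist (P u false) (P u true) ∧
      ∀ x ∈ star (fun _ => 0) n u, ∀ i,
        dist (F ((gen x, true), xor i (tau (vtx _ u) x))) (P u i) < 1 / ((k : ℝ) + 1) := by
    intro u
    have hpos : 0 < dist (P u false) (P u true) := dist_pos.2 fun h => by
      have := congrArg Prod.snd (hinj h)
      cases this
    obtain ⟨k, hk⟩ := exists_nat_one_div_lt (show 0 < dist (P u false) (P u true) / 6 by positivity)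
    have hc : ∀ i, ∀ᶠ x in 𝓝 (vtx (fun _ => 0) u),
        dist (F ((gen x, true), xor i (tau (vtx _ u) x))) (P u i) < 1 / ((k : ℝ) + 1) := by
      intro i
      have h1 : ContinuousAt (Y := Tw r) (fun x : Pt fun _ => 0 =>
          ((gen x, true), xor i (tau (vtx _ u) x))) (vtx _ u) := by
        refine Tw.continuousAt_to hr (F := fun x : Pt fun _ => 0 =>
          ((gen x, true), xor i (tau (vtx _ u) x)))
          (continuous_gen.prodMk continuous_const).continuousAt ?_
        refine Eventually.of_forall fun x => ?_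
        simp [loc, hgen, tau_self]
      have h2 := (hF.continuousAt.comp h1).eventually
        (Metric.ball_mem_nhds _ (show 0 < 1 / ((k : ℝ) + 1) by positivity))
      filter_upwards [h2] with x hx
      simpa [tau_self, P] using hx
    obtain ⟨n, hn⟩ := star_of_nhds ((hc false).and (hc true))
    refine ⟨k, n, by linarith, fun x hx i => ?_⟩
    cases i
    · exact (hn hx).1
    · exact (hn hx).2
  choose k n hk hn using hloc
  let c : Vx → ℕ × ℕ × List ℤ := fun u => (k u, n u, (List.range (n u)).map u)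
  have : ∃ d, {u | c u = d}.Infinite := by
    by_contra hc
    push Not at hc
    have : (univ : Set Vx).Countable := by
      refine (countable_iUnion fun d => (hc d).countable).mono fun u _ => ?_
      exact mem_iUnion.2 ⟨c u, rfl⟩
    haveI hunc : Uncountable Vx := Cardinal.aleph0_lt_mk_iff.1 (by
      simp [Cardinal.aleph0_lt_continuum])
    exact not_countable_univ this
  obtain ⟨d, hd⟩ := this
  obtain ⟨T, hT, hT3⟩ := hd.exists_subset_card_eq 3
  obtain ⟨u, w, t, huw, hut, hwt, rfl⟩ := Finset.card_eq_three.1 hT3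
  have key : ∀ a b, c a = d → c b = d → a ≠ b → ∀ i,
      dist (P a i) (P b (!i)) < 2 * (1 / ((d.1 : ℝ) + 1)) := by
    intro a b ha hb hab i
    have hab' : c a = c b := ha.trans hb.symm
    have e1 : k a = d.1 := congrArg Prod.fst ha
    have e2 : k b = d.1 := congrArg Prod.fst hb
    have e3 : n a = n b := congrArg (fun z => z.2.1) hab'
    have e4 : (List.range (n a)).map a = (List.range (n b)).map b :=
      congrArg (fun z => z.2.2) hab'
    rw [← e3, List.map_inj_left] at e4
    have hag : agree (n a) a b := fun j hj => e4 j (List.mem_range.2 hj)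
    let x : Pt fun _ => 0 := ⟨a, b, by simp⟩
    have h1 := hn a x ⟨Or.inl rfl, hag⟩ i
    have h2 := hn b x ⟨Or.inr rfl, e3 ▸ hag⟩ (!i)
    have t1 : tau (vtx _ a) x = false := by simp [tau, vtx, x]
    have t2 : tau (vtx _ b) x = true := by simp [tau, vtx, x, Ne.symm hab]
    rw [t1, e1, Bool.xor_false] at h1
    rw [t2, e2, Bool.xor_true, Bool.not_not] at h2
    have := dist_triangle_left (P a i) (P b (!i)) (F ((gen x, true), i))
    linarith
  have hu : c u = d := hT (by simp)
  have hw : c w = d := hT (by simp)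
  have ht : c t = d := hT (by simp)
  have k1 := key u w hu hw huw false
  have k2 := key w t hw ht hwt true
  have k3 := key t u ht hu hut.symm false
  have k4 := hk u
  rw [show k u = d.1 from congrArg Prod.fst hu] at k4
  have := dist_triangle4 (P u false) (P w true) (P t false) (P u true)
  simp only [Bool.not_false, Bool.not_true] at k1 k2 k3
  linarith

/-- The second example: not submetrizable. -/
theorem exists_example' : ∃ (G : Type) (_ : TopologicalSpace G) (p : G → G → G) (e : G),
    T2Space G ∧ (Continuous fun q : G × G => p q.1 q.2) ∧ (∀ s t, p s (p s t) = t) ∧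
    (∀ s, p s s = e) ∧
    (∀ (Y : Type) [MetricSpace Y] (F : G → Y), Continuous F → ¬ Function.Injective F) ∧
    ∀ x : G, ∃ U : ℕ → Set G, (∀ i, IsOpen (U i)) ∧ ⋂ i, U i = {x} := by
  let S := scales (fun _ => 0)
  let r : BG (Pt fun _ => 0) → Pt fun _ => 0 := S.ret (vtx _ 0)
  have hr : Continuous r := S.continuous_ret _
  haveI := S.t2_BG
  refine ⟨Tw r, inferInstance, opT, ((0, false), false),
    T2Space.of_injective_continuous Tw.code_injective Tw.continuous_code, continuous_opT hr,
    opT_opT, opT_self, fun Y _ F hF hinj => not_submetrizable hr (S.ret_gen _) F hF hinj, ?_⟩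
  intro x
  refine ⟨fun m => {z | push (S.ρ m) z.1.1 = push (S.ρ m) x.1.1 ∧ z.1.2 = x.1.2 ∧
    sheet (r x.1.1) z = sheet (r x.1.1) x}, fun m => ?_, ?_⟩
  · exact ((isOpen_push_fiber (S.lc m) _).preimage
      (continuous_fst.comp Tw.continuous_base)).inter
      (((isOpen_discrete {x.1.2}).preimage (continuous_snd.comp Tw.continuous_base)).inter
        ((isOpen_discrete {sheet (r x.1.1) x}).preimage (Tw.continuous_sheet _)))
  · ext z
    simp only [mem_iInter, mem_setOf_eq, mem_singleton_iff]
    constructor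
    · intro h
      have h1 : z.1 = x.1 := Prod.ext (S.push_sep _ _ fun m => (h m).1) (h 0).2.1
      have h2 := (h 0).2.2
      rw [sheet_self, ← h1, sheet_self] at h2
      exact Prod.ext h1 h2
    · rintro rfl i
      exact ⟨rfl, rfl, rfl⟩

end H86Rect
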